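import Pool.Agent.H354.BG.Stm

set_option autoImplicit false

/-! Project BG (helper354): double cosets are decidable (helper807). -/

namespace Pool.Agent.H807.BG.DCSC

open Pool.Agent.H354.BG
open Pool.Agent.H482R3.EA (W inv ev PP xx evF cond1 cond2 Syl gOf Sys St Near InD Adm Act)
open Pool.Agent.H482R3.EB (tot wp alt rels AR gR TR Tame Symm alt_length)

section general

variable {α β : Type} [Primcodable α] [Primcodable β]

theorem cp_comp {p : β → Prop} (hp : ComputablePred p) {f : α → β} (hf : Computable f) :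
    ComputablePred (fun a => p (f a)) := by
  rw [ComputablePred.computable_iff] at hp ⊢
  obtain ⟨g, hg, rfl⟩ := hp
  exact ⟨fun a => g (f a), hg.comp hf, rfl⟩

theorem cp_and {p q : α → Prop} (hp : ComputablePred p) (hq : ComputablePred q) :
    ComputablePred (fun a => p a ∧ q a) := by
  rw [ComputablePred.computable_iff] at hp hq ⊢
  obtain ⟨f, hf, rfl⟩ := hp
  obtain ⟨g, hg, rfl⟩ := hq
  refine ⟨fun a => f a && g a, Primrec.and.to_comp.comp hf hg, ?_⟩
  funext a
  rw [Bool.and_eq_true]

theorem cp_false : ComputablePred (fun _ : α => False) := by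
  rw [ComputablePred.computable_iff]
  refine ⟨fun _ => false, Computable.const false, ?_⟩
  funext a
  simp

theorem cp_fin {n : ℕ} {Q : Fin n → α → Prop} (hQ : ∀ i, ComputablePred (Q i)) :
    ComputablePred (fun p : Fin n × α => Q p.1 p.2) := by
  have h : ∀ i, ∃ f : α → Bool, Computable f ∧ Q i = fun a => f a = true :=
    fun i => ComputablePred.computable_iff.1 (hQ i)
  choose f hf hf' using h
  rw [ComputablePred.computable_iff]
  refine ⟨fun p => (List.Vector.ofFn fun i => f i p.2).get p.1, ?_, ?_⟩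
  · exact Computable.vector_get.comp ((Computable.vector_ofFn hf).comp Computable.snd)
      Computable.fst
  · funext p
    have h1 : (List.Vector.ofFn fun i => f i p.2).get p.1 = f p.1 p.2 :=
      List.Vector.get_ofFn _ _
    rw [hf']
    exact congrArg (fun x : Bool => x = true) h1.symm

end general

variable (D : Dat) (U : Finset (Fin D.r)) (b : Fin D.r)

theorem dcs_iff {v w : Fin D.n} (hc : okL D U b v w) (g' g : W (Fin D.n)) :
    dcs D U b w g' g ↔
      rho D U (gEl D ((inv g' ++ g) ++
        inv (flt D (insert (D.β w) (pZ D U b)) (inv g' ++ g)))) = 1 ∧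
      (D.β w = D.β w ∧ P1 D (pZ D U b) (D.β w) (inv g' ++ g) w) := by
  set Z := pZ D U b with hZ
  set u := inv g' ++ g with hu
  have hsub : insert (D.β w) Z ⊆ U := by
    intro c hc'
    rcases Finset.mem_insert.1 hc' with h | h
    · rw [h]
      exact hc.2.1
    · exact pZ_sub D U b h
  have hZs : Z ⊆ insert (D.β w) Z := Finset.subset_insert _ _
  have hgu : (gEl D g')⁻¹ * gEl D g = gEl D u := by
    rw [hu, gEl_append, gEl_inv]
  have h1 : rho D U (gEl D (u ++ inv (flt D (insert (D.β w) Z) u))) = 1 ↔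
      rho D U (gEl D u) = rho D (insert (D.β w) Z) (gEl D u) := by
    rw [gEl_append, gEl_inv, ← rho_gEl, map_mul, map_inv, rho_rho_sub' D hsub, mul_inv_eq_one]
  rw [h1]
  unfold dcs P1
  rw [hgu]
  constructor
  · rintro ⟨i, h₁, h₂, hh₁, hh₂, he⟩
    have h2 : rho D (insert (D.β w) Z) (gEl D u) = h₁ * gR D.m w ^ i * h₂ := by
      rw [← rho_rho_sub D hsub, he, map_mul, map_mul,
        rho_zpow_in D (Finset.mem_insert_self _ _),
        rho_of_par D (par_mono D hZs hh₁), rho_of_par D (par_mono D hZs hh₂)]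
    exact ⟨he.trans h2.symm, rfl, i, h₁, h₂, hh₁, hh₂, h2⟩
  · rintro ⟨he, -, i, h₁, h₂, hh₁, hh₂, h2⟩
    exact ⟨i, h₁, h₂, hh₁, hh₂, he.trans h2⟩

theorem t_DCSC (hbas : S_BASX) : S_DCSC := by
  intro D U b hbU hW hR
  obtain ⟨hinv, hflt, -⟩ := hbas D
  have hu : Computable (fun q : W (Fin D.n) × W (Fin D.n) => inv q.1 ++ q.2) :=
    Computable.list_append.comp (hinv.comp Computable.fst) Computable.snd
  have key : ∀ v w : Fin D.n, ComputablePred (fun q : W (Fin D.n) × W (Fin D.n) =>
      okL D U b v w ∧ dcs D U b w q.1 q.2) := by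
    intro v w
    by_cases hc : okL D U b v w
    · have hw1 : ComputablePred (fun q : W (Fin D.n) × W (Fin D.n) =>
          rho D U (gEl D ((inv q.1 ++ q.2) ++
            inv (flt D (insert (D.β w) (pZ D U b)) (inv q.1 ++ q.2)))) = 1) :=
        cp_comp hW (Computable.list_append.comp hu
          (hinv.comp ((hflt (insert (D.β w) (pZ D U b))).comp hu)))
      have hw2 : ComputablePred (fun q : W (Fin D.n) × W (Fin D.n) =>
          D.β w = D.β w ∧ P1 D (pZ D U b) (D.β w) (inv q.1 ++ q.2) w) :=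
        cp_comp (hR (D.β w) hc.2.1 hc.2.2.2.1).1 (hu.pair (Computable.const w))
      refine (cp_and hw1 hw2).of_eq fun q => ?_
      rw [← dcs_iff D U b hc]
      exact ⟨fun h => ⟨hc, h⟩, fun h => h.2⟩
    · exact cp_false.of_eq fun q => ⟨fun h => h.elim, fun h => hc h.1⟩
  have h1 : ∀ v : Fin D.n, ComputablePred (fun q : Fin D.n × (W (Fin D.n) × W (Fin D.n)) =>
      okL D U b v q.1 ∧ dcs D U b q.1 q.2.1 q.2.2) := fun v => cp_fin (key v)
  have h2 : ComputablePred (fun q : Fin D.n × (Fin D.n × (W (Fin D.n) × W (Fin D.n))) =>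
      okL D U b q.1 q.2.1 ∧ dcs D U b q.2.1 q.2.2.1 q.2.2.2) := cp_fin h1
  exact cp_comp h2 ((Computable.fst.comp Computable.fst).pair
    ((Computable.snd.comp Computable.fst).pair Computable.snd))

end Pool.Agent.H807.BG.DCSC
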